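import Pool.Agent.W761.CP.Defs

/-!
Project CP (helper761), parts SUB and SYM: the operator is a single valued linear relation,
symmetric for the complex conjugation.
-/

set_option autoImplicit false

open MeasureTheory
open scoped ENNReal FourierTransform SchwartzMap InnerProductSpace LineDeriv

namespace Pool.Agent.W357.CP
open Pool.Agent.Helper209.CX (Ed L2d)
open Pool.Agent.W761.CP

variable {d : ℕ}

lemma int_mul {a b : Ed d → ℂ} (ha : MemLp a 2 volume) (hb : MemLp b 2 volume) :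
    Integrable (fun x => a x * b x) volume := ha.integrable_mul hb

lemma fd_eq (φ : 𝓢(Ed d, ℂ)) (k : Fin d) (x : Ed d) :
    fderiv ℝ (fun y => φ y) x (ev k) = (∂_{ev k} φ : 𝓢(Ed d, ℂ)) x :=
  (SchwartzMap.lineDerivOp_apply_eq_fderiv _ _ _).symm

lemma inner_eq (a b : L2d d) : ⟪a, b⟫_ℂ = ∫ x, (starRingEnd ℂ) (a x) * b x := by
  rw [L2.inner_def]
  refine integral_congr_ae (Filter.Eventually.of_forall fun x => ?_)
  simp [RCLike.inner_apply, mul_comm]

lemma isGrad_zero : IsGrad (0 : L2d d) (fun _ => 0) := by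
  intro φ k
  have h1 : (fun x => (0 : L2d d) x * fderiv ℝ (fun y => φ y) x (ev k)) =ᵐ[volume] 0 := by
    filter_upwards [Lp.coeFn_zero ℂ 2 (volume : Measure (Ed d))] with x hx
    simp [hx]
  have h2 : (fun x => (0 : L2d d) x * φ x) =ᵐ[volume] 0 := by
    filter_upwards [Lp.coeFn_zero ℂ 2 (volume : Measure (Ed d))] with x hx
    simp [hx]
  rw [integral_congr_ae h1, integral_congr_ae h2]
  simp

lemma isGrad_add {u v : L2d d} {g g' : Fin d → L2d d} (hu : IsGrad u g) (hv : IsGrad v g') :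
    IsGrad (u + v) (g + g') := by
  intro φ k
  have i1 : Integrable (fun x => u x * fderiv ℝ (fun y => φ y) x (ev k)) volume := by
    simp only [fd_eq]
    exact int_mul (Lp.memLp u) (SchwartzMap.memLp _ 2 volume)
  have i2 : Integrable (fun x => v x * fderiv ℝ (fun y => φ y) x (ev k)) volume := by
    simp only [fd_eq]
    exact int_mul (Lp.memLp v) (SchwartzMap.memLp _ 2 volume)
  have i3 : Integrable (fun x => g k x * φ x) volume :=
    int_mul (Lp.memLp (g k)) (SchwartzMap.memLp _ 2 volume)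
  have i4 : Integrable (fun x => g' k x * φ x) volume :=
    int_mul (Lp.memLp (g' k)) (SchwartzMap.memLp _ 2 volume)
  have e1 : ∫ x, (u + v : L2d d) x * fderiv ℝ (fun y => φ y) x (ev k) =
      ∫ x, (u x * fderiv ℝ (fun y => φ y) x (ev k) + v x * fderiv ℝ (fun y => φ y) x (ev k)) := by
    refine integral_congr_ae ?_
    filter_upwards [Lp.coeFn_add u v] with x hx
    rw [hx, Pi.add_apply, add_mul]
  have e2 : ∫ x, (g k + g' k : L2d d) x * φ x = ∫ x, (g k x * φ x + g' k x * φ x) := by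
    refine integral_congr_ae ?_
    filter_upwards [Lp.coeFn_add (g k) (g' k)] with x hx
    rw [hx, Pi.add_apply, add_mul]
  rw [Pi.add_apply, e1, e2, integral_add i1 i2, integral_add i3 i4, hu φ k, hv φ k]
  ring

lemma isGrad_smul {u : L2d d} {g : Fin d → L2d d} (hu : IsGrad u g) (c : ℂ) :
    IsGrad (c • u) (c • g) := by
  intro φ k
  have e1 : ∫ x, (c • u : L2d d) x * fderiv ℝ (fun y => φ y) x (ev k) =
      ∫ x, c * (u x * fderiv ℝ (fun y => φ y) x (ev k)) := by
    refine integral_congr_ae ?_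
    filter_upwards [Lp.coeFn_smul c u] with x hx
    rw [hx, Pi.smul_apply, smul_eq_mul, mul_assoc]
  have e2 : ∫ x, (c • g k : L2d d) x * φ x = ∫ x, c * (g k x * φ x) := by
    refine integral_congr_ae ?_
    filter_upwards [Lp.coeFn_smul c (g k)] with x hx
    rw [hx, Pi.smul_apply, smul_eq_mul, mul_assoc]
  rw [Pi.smul_apply, e1, e2, integral_const_mul, integral_const_mul, hu φ k]
  ring

/-- the conjugate Schwartz function -/
noncomputable def cj (φ : 𝓢(Ed d, ℂ)) : 𝓢(Ed d, ℂ) :=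
  φ.postcompCLM (𝕜 := ℝ) (Complex.conjCLE : ℂ →L[ℝ] ℂ)

lemma cj_apply (φ : 𝓢(Ed d, ℂ)) (x : Ed d) : cj φ x = (starRingEnd ℂ) (φ x) := rfl

lemma cj_fd (φ : 𝓢(Ed d, ℂ)) (k : Fin d) (x : Ed d) :
    fderiv ℝ (fun y => cj φ y) x (ev k) =
      (starRingEnd ℂ) (fderiv ℝ (fun y => φ y) x (ev k)) := by
  have h1 : (fun y => cj φ y) = fun y => (Complex.conjCLE : ℂ →L[ℝ] ℂ) (φ y) := rfl
  have h2 : HasFDerivAt (fun y => (Complex.conjCLE : ℂ →L[ℝ] ℂ) (φ y))
      ((Complex.conjCLE : ℂ →L[ℝ] ℂ).comp (fderiv ℝ (fun y => φ y) x)) x :=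
    (Complex.conjCLE : ℂ →L[ℝ] ℂ).hasFDerivAt.comp x φ.differentiableAt.hasFDerivAt
  rw [h1, h2.fderiv]
  rfl

lemma isGrad_star {u : L2d d} {g : Fin d → L2d d} (hu : IsGrad u g) :
    IsGrad (star u) (fun k => star (g k)) := by
  intro φ k
  have h1 := hu (cj φ) k
  have e1 : ∫ x, (star u : L2d d) x * fderiv ℝ (fun y => φ y) x (ev k) =
      ∫ x, (starRingEnd ℂ) (u x * fderiv ℝ (fun y => cj φ y) x (ev k)) := by
    refine integral_congr_ae ?_
    filter_upwards [Lp.coeFn_star u] with x hx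
    rw [hx, cj_fd, map_mul, Complex.conj_conj]
    rfl
  have e2 : ∫ x, (star (g k) : L2d d) x * φ x = ∫ x, (starRingEnd ℂ) (g k x * cj φ x) := by
    refine integral_congr_ae ?_
    filter_upwards [Lp.coeFn_star (g k)] with x hx
    rw [hx, cj_apply, map_mul, Complex.conj_conj]
    rfl
  rw [e1, e2, integral_conj, integral_conj, h1, map_neg]

lemma isGrad_sch (φ : 𝓢(Ed d, ℂ)) :
    IsGrad (φ.toLp 2 volume) (fun k => (∂_{ev k} φ : 𝓢(Ed d, ℂ)).toLp 2 volume) := by
  intro ψ k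
  have e1 : ∫ x, (φ.toLp 2 volume : L2d d) x * fderiv ℝ (fun y => ψ y) x (ev k) =
      ∫ x, φ x * (∂_{ev k} ψ : 𝓢(Ed d, ℂ)) x := by
    refine integral_congr_ae ?_
    filter_upwards [SchwartzMap.coeFn_toLp φ 2 volume] with x hx
    rw [hx, fd_eq]
  have e2 : ∫ x, ((∂_{ev k} φ : 𝓢(Ed d, ℂ)).toLp 2 volume : L2d d) x * ψ x =
      ∫ x, (∂_{ev k} φ : 𝓢(Ed d, ℂ)) x * ψ x := by
    refine integral_congr_ae ?_
    filter_upwards [SchwartzMap.coeFn_toLp (∂_{ev k} φ : 𝓢(Ed d, ℂ)) 2 volume] with x hx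
    rw [hx]
  rw [e1, e2]
  exact SchwartzMap.integral_mul_lineDerivOp_right_eq_neg_left φ ψ (ev k)

lemma eq_zero_of_sch {f : L2d d} (h : ∀ φ : 𝓢(Ed d, ℂ), ⟪(φ.toLp 2 volume : L2d d), f⟫_ℂ = 0) :
    f = 0 := by
  have h1 : DenseRange (SchwartzMap.toLpCLM ℝ ℂ 2 (volume : Measure (Ed d))) :=
    SchwartzMap.denseRange_toLpCLM (by simp)
  have h2 : ∀ v : L2d d, ⟪v, f⟫_ℂ = 0 := by
    intro v
    refine h1.induction_on (p := fun v => ⟪v, f⟫_ℂ = 0) v ?_ ?_
    · exact isClosed_eq (continuous_id.inner continuous_const) continuous_const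
    · intro φ
      exact h φ
  exact inner_self_eq_zero.1 (h2 f)

lemma isGrad_zero_uniq {g : Fin d → L2d d} (hg : IsGrad (0 : L2d d) g) : g = 0 := by
  funext k
  apply eq_zero_of_sch
  intro φ
  have h1 := hg (cj φ) k
  have h2 : (fun x => (0 : L2d d) x * fderiv ℝ (fun y => cj φ y) x (ev k)) =ᵐ[volume] 0 := by
    filter_upwards [Lp.coeFn_zero ℂ 2 (volume : Measure (Ed d))] with x hx
    simp [hx]
  rw [integral_congr_ae h2] at h1
  simp only [Pi.zero_apply, integral_zero] at h1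
  have h3 : ∫ x, g k x * cj φ x = 0 := by
    rw [eq_comm, neg_eq_zero] at h1
    exact h1
  rw [inner_eq, ← h3]
  refine integral_congr_ae ?_
  filter_upwards [SchwartzMap.coeFn_toLp φ 2 volume] with x hx
  rw [hx, cj_apply, mul_comm]

lemma fb_int {V : Ed d → ℂ} (hV : FB V) {u v : L2d d} {g g' : Fin d → L2d d} (hu : IsGrad u g)
    (hv : IsGrad v g') : Integrable (fun x => V x * u x * (starRingEnd ℂ) (v x)) volume := by
  obtain ⟨hm, C, hC, hb⟩ := hV
  have h1 := (hb u g hu).1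
  have h2 := (hb v g' hv).1
  refine Integrable.mono' (h1.add h2) ?_ (Filter.Eventually.of_forall fun x => ?_)
  · exact (hm.aestronglyMeasurable.mul (Lp.aestronglyMeasurable u)).mul
      (Complex.continuous_conj.comp_aestronglyMeasurable (Lp.aestronglyMeasurable v))
  · rw [norm_mul, norm_mul, RCLike.norm_conj, Pi.add_apply]
    nlinarith [norm_nonneg (V x), norm_nonneg (u x), norm_nonneg (v x),
      mul_nonneg (norm_nonneg (V x)) (sq_nonneg (‖u x‖ - ‖v x‖)),
      mul_nonneg (norm_nonneg (V x)) (sq_nonneg (‖u x‖)),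
      mul_nonneg (norm_nonneg (V x)) (sq_nonneg (‖v x‖))]

lemma hu_zero {h : ℝ} {V : Ed d → ℂ} : Hu h V (0 : L2d d) 0 := by
  refine ⟨fun _ => 0, isGrad_zero, fun φ g' _ => ?_⟩
  have h2 : (fun x => V x * (0 : L2d d) x * (starRingEnd ℂ) (φ x)) =ᵐ[volume] 0 := by
    filter_upwards [Lp.coeFn_zero ℂ 2 (volume : Measure (Ed d))] with x hx
    simp [hx]
  rw [integral_congr_ae h2]
  simp

lemma hu_add {h : ℝ} {V : Ed d → ℂ} (hV : FB V) {u v f f' : L2d d} (h1 : Hu h V u f)
    (h2 : Hu h V v f') : Hu h V (u + v) (f + f') := by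
  obtain ⟨g, hg, h3⟩ := h1
  obtain ⟨g', hg', h4⟩ := h2
  refine ⟨g + g', isGrad_add hg hg', fun φ gφ hφ => ?_⟩
  have e1 : ∫ x, V x * (u + v : L2d d) x * (starRingEnd ℂ) (φ x) =
      ∫ x, (V x * u x * (starRingEnd ℂ) (φ x) + V x * v x * (starRingEnd ℂ) (φ x)) := by
    refine integral_congr_ae ?_
    filter_upwards [Lp.coeFn_add u v] with x hx
    rw [hx, Pi.add_apply]
    ring
  rw [e1, integral_add (fb_int hV hg hφ) (fb_int hV hg' hφ), inner_add_right, ← h3 φ gφ hφ,
    ← h4 φ gφ hφ]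
  simp only [Pi.add_apply, inner_add_right, Finset.sum_add_distrib]
  ring

lemma hu_smul {h : ℝ} {V : Ed d → ℂ} {u f : L2d d} (c : ℂ) (h1 : Hu h V u f) :
    Hu h V (c • u) (c • f) := by
  obtain ⟨g, hg, h3⟩ := h1
  refine ⟨c • g, isGrad_smul hg c, fun φ gφ hφ => ?_⟩
  have e1 : ∫ x, V x * (c • u : L2d d) x * (starRingEnd ℂ) (φ x) =
      ∫ x, c * (V x * u x * (starRingEnd ℂ) (φ x)) := by
    refine integral_congr_ae ?_
    filter_upwards [Lp.coeFn_smul c u] with x hx
    rw [hx, Pi.smul_apply, smul_eq_mul]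
    ring
  rw [e1, integral_const_mul, inner_smul_right, ← h3 φ gφ hφ]
  simp only [Pi.smul_apply, inner_smul_right, ← Finset.mul_sum]
  ring

theorem hu_single {h : ℝ} {V : Ed d → ℂ} {f : L2d d} (h1 : Hu h V 0 f) : f = 0 := by
  obtain ⟨g, hg, h3⟩ := h1
  have h4 := isGrad_zero_uniq hg
  subst h4
  apply eq_zero_of_sch
  intro φ
  rw [← h3 _ _ (isGrad_sch φ)]
  have h2 : (fun x => V x * (0 : L2d d) x *
      (starRingEnd ℂ) ((φ.toLp 2 volume : L2d d) x)) =ᵐ[volume] 0 := by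
    filter_upwards [Lp.coeFn_zero ℂ 2 (volume : Measure (Ed d))] with x hx
    simp [hx]
  rw [integral_congr_ae h2]
  simp

theorem sub : S_SUB := by
  intro d h V hV
  refine ⟨{ carrier := {p | Hu h V p.1 p.2}, add_mem' := ?_, zero_mem' := ?_, smul_mem' := ?_ },
    fun u f => Iff.rfl, fun f hf => hu_single hf⟩
  · rintro ⟨a, b⟩ ⟨a', b'⟩ h1 h2
    exact hu_add hV h1 h2
  · exact hu_zero
  · rintro c ⟨a, b⟩ h1
    exact hu_smul c h1

lemma inner_star (a b : L2d d) : ⟪star a, b⟫_ℂ = ∫ x, a x * b x := by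
  rw [inner_eq]
  refine integral_congr_ae ?_
  filter_upwards [Lp.coeFn_star a] with x hx
  rw [hx]
  have : (star (a : Ed d → ℂ)) x = (starRingEnd ℂ) (a x) := rfl
  rw [this, Complex.conj_conj]

lemma inner_star_comm (a b : L2d d) : ⟪star a, b⟫_ℂ = ⟪star b, a⟫_ℂ := by
  rw [inner_star, inner_star]
  exact integral_congr_ae (Filter.Eventually.of_forall fun x => mul_comm _ _)

theorem sym : S_SYM := by
  intro d h V hV u f v f' h1 h2
  obtain ⟨g, hg, h3⟩ := h1
  obtain ⟨g', hg', h4⟩ := h2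
  constructor
  · rw [← h3 _ _ (isGrad_star hg'), inner_star_comm f' u, ← h4 _ _ (isGrad_star hg)]
    congr 1
    · congr 1
      exact Finset.sum_congr rfl fun k _ => inner_star_comm _ _
    · refine integral_congr_ae ?_
      filter_upwards [Lp.coeFn_star u, Lp.coeFn_star v] with x hx hy
      rw [hx, hy]
      have e1 : (star (u : Ed d → ℂ)) x = (starRingEnd ℂ) (u x) := rfl
      have e2 : (star (v : Ed d → ℂ)) x = (starRingEnd ℂ) (v x) := rfl
      rw [e1, e2, Complex.conj_conj, Complex.conj_conj]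
      ring
  · intro hr
    rw [← inner_conj_symm f' u, ← h3 _ _ hg', ← h4 _ _ hg, map_add, map_mul, map_sum,
      ← integral_conj]
    congr 1
    · congr 1
      · exact (Complex.conj_ofReal _).symm
      · exact Finset.sum_congr rfl fun k _ => (inner_conj_symm _ _).symm
    · refine integral_congr_ae (Filter.Eventually.of_forall fun x => ?_)
      have e1 : (starRingEnd ℂ) (V x) = V x := Complex.conj_eq_iff_im.2 (hr x)
      simp only [map_mul, Complex.conj_conj, e1]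
      ring

end Pool.Agent.W357.CP
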